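import Pool.Graph.R_seed8.H523R2.Cap.Cert

/-!
A faster check of the hypotheses of the extended product construction: for every pair of words the
set of all third words is computed as one number, with one bit for each word.
-/

namespace Pool.Agent.H45.Cap

open Pool.Agent.H523R2.Cap

/-- all elements of a list, with their indices -/
def allI {α : Type} (f : ℕ → α → Bool) : ℕ → List α → Bool
  | _, [] => true
  | g, a :: l => f g a && allI f (g + 1) l

lemma allI_true {α : Type} (f : ℕ → α → Bool) : ∀ (l : List α) (g : ℕ), allI f g l = true →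
    ∀ (t : ℕ) (a : α), l[t]? = some a → f (g + t) a = true
  | [], g, _, t, a, h => by simp at h
  | x :: l, g, h, t, a, ha => by
    rw [allI, Bool.and_eq_true] at h
    cases t with
    | zero =>
      simp only [List.getElem?_cons_zero, Option.some.injEq] at ha
      subst ha
      exact h.1
    | succ t =>
      rw [List.getElem?_cons_succ] at ha
      have := allI_true f l (g + 1) h.2 t a ha
      rwa [show g + (t + 1) = g + 1 + t by ring]

/-- the set of the third words -/
def andM (w q R : ℕ) : ℕ → List ℕ → List ℕ → ℕ → ℕ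
  | p, x :: l, y :: m, acc => andM w q R (p + 1) l m (Nat.land acc (Nat.shiftRight R (w * (q * q * p + q * x + y))))
  | _, _, _, acc => acc

/-- the table `R` contains the bits of the word `n` with index `u` -/
def rrow (T q w R u : ℕ) : ℕ → List ℕ → Bool
  | p, c :: n => ((List.range q).all fun x => (List.range q).all fun y =>
      !(tst T q x y c) || R.testBit (w * (q * q * p + q * x + y) + u)) && rrow T q w R u (p + 1) n
  | _, [] => true

lemma andM_bit (T q w R u : ℕ) : ∀ (n l m : List ℕ) (p acc : ℕ), l.length = n.length →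
    m.length = n.length → (∀ x ∈ l, x < q) → (∀ x ∈ m, x < q) → rrow T q w R u p n = true →
    allE T q l m n = true → acc.testBit u = true → (andM w q R p l m acc).testBit u = true
  | [], l, m, p, acc, hl, hm, _, _, _, _, ha => by
    rw [List.length_nil, List.length_eq_zero_iff] at hl hm
    subst hl; subst hm
    exact ha
  | c :: n, l, m, p, acc, hl, hm, hlq, hmq, hr, he, ha => by
    obtain ⟨x, l, rfl⟩ := List.exists_cons_of_length_eq_add_one hl
    obtain ⟨y, m, rfl⟩ := List.exists_cons_of_length_eq_add_one hm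
    simp only [List.length_cons, Nat.add_right_cancel_iff] at hl hm
    rw [allE, Bool.and_eq_true] at he
    rw [rrow, Bool.and_eq_true] at hr
    rw [andM]
    refine andM_bit T q w R u n l m (p + 1) _ hl hm (fun z hz => hlq z (List.mem_cons_of_mem _ hz))
      (fun z hz => hmq z (List.mem_cons_of_mem _ hz)) hr.2 he.2 ?_
    have h1 := hr.1
    rw [List.all_eq_true] at h1
    have h2 := h1 x (List.mem_range.2 (hlq x List.mem_cons_self))
    rw [List.all_eq_true] at h2
    have h3 := h2 y (List.mem_range.2 (hmq y List.mem_cons_self))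
    rw [he.1, Bool.not_true, Bool.false_or] at h3
    have e : Nat.land acc (Nat.shiftRight R (w * (q * q * p + q * x + y))) =
      acc &&& (R >>> (w * (q * q * p + q * x + y))) := rfl
    rw [e, Nat.testBit_and, Nat.testBit_shiftRight, ha, Bool.true_and]
    exact h3

/-- all words with their classes -/
def flat (S : List (List (List ℕ))) : List (ℕ × List ℕ) :=
  (List.range S.length).flatMap fun i => (S.getD i []).map fun l => (i, l)

lemma mem_flat (S : List (List (List ℕ))) (i : ℕ) (l : List ℕ) (hi : i < S.length)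
    (hl : l ∈ S.getD i []) : ∃ g : ℕ, (flat S)[g]? = some (i, l) := by
  rw [← List.mem_iff_getElem?]
  unfold flat
  rw [List.mem_flatMap]
  exact ⟨i, List.mem_range.2 hi, List.mem_map.2 ⟨l, hl, rfl⟩⟩

/-- the mask of the forbidden third words -/
def forb (F : List ℕ) (i j : ℕ) : ℕ := F.getD (3 * i + j) 0

/-- the whole check -/
def fast (T q T' b w R : ℕ) (F : List ℕ) (W : List (ℕ × List ℕ)) : Bool :=
  (W.all fun a => a.2.length == b && a.2.all fun x => decide (x < q)) &&
  allI (fun u a => rrow T q w R u 0 a.2) 0 W &&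
  (allI (fun u a => (List.range 3).all fun i => (List.range 3).all fun j =>
    (tst T' 3 i j a.1 && !(i == a.1 && j == a.1)) || (forb F i j).testBit u) 0 W) &&
  allI (fun g a => allI (fun h c =>
    Nat.beq (andM w q R 0 a.2 c.2 (forb F a.1 c.1)) 0 ||
      (Nat.beq g h && Nat.beq (andM w q R 0 a.2 c.2 (forb F a.1 c.1)) (2 ^ g))) 0 W) 0 W

theorem key (T q T' b w R : ℕ) (F : List ℕ) (W : List (ℕ × List ℕ))
    (hf : fast T q T' b w R F W = true) (g h u : ℕ) (i j k : ℕ) (hi : i < 3) (hj : j < 3)
    (l m n : List ℕ) (hg : W[g]? = some (i, l)) (hh : W[h]? = some (j, m))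
    (hu : W[u]? = some (k, n)) (he : allE T q l m n = true)
    (hforb : tst T' 3 i j k = false ∨ (i = k ∧ j = k)) : g = h ∧ g = u := by
  unfold fast at hf
  rw [Bool.and_eq_true, Bool.and_eq_true, Bool.and_eq_true] at hf
  obtain ⟨⟨⟨f1, f2⟩, f3⟩, f4⟩ := hf
  have hlen : ∀ a ∈ W, a.2.length = b ∧ ∀ x ∈ a.2, x < q := by
    intro a ha
    rw [List.all_eq_true] at f1
    have := f1 a ha
    rw [Bool.and_eq_true, beq_iff_eq, List.all_eq_true] at this
    exact ⟨this.1, fun x hx => of_decide_eq_true (this.2 x hx)⟩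
  have ml := hlen _ (List.mem_iff_getElem?.2 ⟨g, hg⟩)
  have mm := hlen _ (List.mem_iff_getElem?.2 ⟨h, hh⟩)
  have mn := hlen _ (List.mem_iff_getElem?.2 ⟨u, hu⟩)
  have r1 := allI_true _ _ _ f2 u _ hu
  have r2 := allI_true _ _ _ f3 u _ hu
  have r3 := allI_true _ _ _ (allI_true _ _ _ f4 g _ hg) h _ hh
  simp only [Nat.zero_add] at r1 r2 r3
  rw [List.all_eq_true] at r2
  have r4 := r2 i (List.mem_range.2 hi)
  rw [List.all_eq_true] at r4
  have r5 := r4 j (List.mem_range.2 hj)
  have r6 : (forb F i j).testBit u = true := by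
    rw [Bool.or_eq_true] at r5
    rcases r5 with r5 | r5
    · exfalso
      rw [Bool.and_eq_true] at r5
      rcases hforb with hforb | ⟨h1, h2⟩
      · rw [hforb] at r5
        exact absurd r5.1 (by simp)
      · subst h1; subst h2
        simp at r5
    · exact r5
  have r7 := andM_bit T q w R u n l m 0 (forb F i j) (ml.1.trans mn.1.symm) (mm.1.trans mn.1.symm)
    ml.2 mm.2 r1 he r6
  rw [Bool.or_eq_true] at r3
  rcases r3 with r3 | r3
  · rw [Nat.eq_of_beq_eq_true r3] at r7
    simp at r7
  · rw [Bool.and_eq_true] at r3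
    refine ⟨Nat.eq_of_beq_eq_true r3.1, ?_⟩
    rw [Nat.eq_of_beq_eq_true r3.2] at r7
    rw [Nat.testBit_two_pow] at r7
    exact of_decide_eq_true r7

theorem chk_of_fast (T q T' b w R : ℕ) (F : List ℕ) (S : List (List (List ℕ)))
    (hS : S.length = 3) (hnd : (S.all fun L => decide L.Nodup) = true)
    (hT' : ∀ i < 3, tst T' 3 i i i = true)
    (hf : fast T q T' b w R F (flat S) = true) : chk T q T' b S = true := by
  have hmem : ∀ L ∈ S, ∃ i < 3, S.getD i [] = L := by
    intro L hL
    obtain ⟨i, hi, rfl⟩ := List.mem_iff_getElem.1 hL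
    exact ⟨i, by omega, by rw [List.getD_eq_getElem _ _ hi]⟩
  have hlen : ∀ L ∈ S, ∀ l ∈ L, l.length = b ∧ ∀ x ∈ l, x < q := by
    intro L hL l hl
    obtain ⟨i, hi, hi'⟩ := hmem L hL
    obtain ⟨g, hg⟩ := mem_flat S i l (by omega) (by rw [hi']; exact hl)
    unfold fast at hf
    rw [Bool.and_eq_true, Bool.and_eq_true, Bool.and_eq_true] at hf
    obtain ⟨⟨⟨f1, f2⟩, f3⟩, f4⟩ := hf
    rw [List.all_eq_true] at f1
    have := f1 _ (List.mem_iff_getElem?.2 ⟨g, hg⟩)
    rw [Bool.and_eq_true, beq_iff_eq, List.all_eq_true] at this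
    exact ⟨this.1, fun x hx => of_decide_eq_true (this.2 x hx)⟩
  unfold chk
  rw [Bool.and_eq_true, Bool.and_eq_true, Bool.and_eq_true]
  refine ⟨⟨⟨?_, hnd⟩, ?_⟩, ?_⟩
  · rw [List.all_eq_true]
    intro L hL
    rw [List.all_eq_true]
    intro l hl
    rw [Bool.and_eq_true, beq_iff_eq, List.all_eq_true]
    exact ⟨(hlen L hL l hl).1, fun x hx => decide_eq_true ((hlen L hL l hl).2 x hx)⟩
  · rw [List.all_eq_true]
    intro L hL
    obtain ⟨i, hi, hi'⟩ := hmem L hL
    rw [List.all_eq_true]
    intro l hl
    rw [List.all_eq_true]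
    intro m hm
    rw [List.all_eq_true]
    intro n hn
    rw [Bool.or_eq_true, Bool.and_eq_true, beq_iff_eq, beq_iff_eq]
    by_cases he : allE T q l m n = true
    · right
      obtain ⟨g, hg⟩ := mem_flat S i l (by omega) (by rw [hi']; exact hl)
      obtain ⟨h, hh⟩ := mem_flat S i m (by omega) (by rw [hi']; exact hm)
      obtain ⟨u, hu⟩ := mem_flat S i n (by omega) (by rw [hi']; exact hn)
      obtain ⟨e1, e2⟩ := key T q T' b w R F _ hf g h u i i i hi hi l m n hg hh hu he
        (Or.inr ⟨rfl, rfl⟩)
      subst e1; subst e2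
      rw [hg] at hh hu
      simp only [Option.some.injEq, Prod.mk.injEq, true_and] at hh hu
      exact ⟨hh, hh.symm.trans hu⟩
    · left
      simpa using he
  · rw [hS, List.all_eq_true]
    intro i hi
    rw [List.all_eq_true]
    intro j hj
    rw [List.all_eq_true]
    intro k hk
    rw [List.mem_range] at hi hj hk
    rw [Bool.or_eq_true]
    by_cases ht : tst T' 3 i j k = true
    · exact Or.inl ht
    · right
      rw [Bool.not_eq_true] at ht
      rw [List.all_eq_true]
      intro l hl
      rw [List.all_eq_true]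
      intro m hm
      rw [List.all_eq_true]
      intro n hn
      rw [Bool.not_eq_true']
      by_contra he
      rw [Bool.not_eq_false] at he
      obtain ⟨g, hg⟩ := mem_flat S i l (by omega) hl
      obtain ⟨h, hh⟩ := mem_flat S j m (by omega) hm
      obtain ⟨u, hu⟩ := mem_flat S k n (by omega) hn
      obtain ⟨e1, e2⟩ := key T q T' b w R F _ hf g h u i j k hi hj l m n hg hh hu he (Or.inl ht)
      subst e1; subst e2
      rw [hg] at hh hu
      simp only [Option.some.injEq, Prod.mk.injEq] at hh hu
      obtain ⟨rfl, -⟩ := hh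
      obtain ⟨rfl, -⟩ := hu
      rw [hT' i hi] at ht
      exact absurd ht (by simp)

end Pool.Agent.H45.Cap
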