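import Pool.Agent.H45.Cap.C1
import Pool.Agent.H45.Cap.C2

/-!
The sizes of the successive extended products, with the two new tables of words.
-/

namespace Pool.Agent.H45.Cap

open Pool.Agent.H523R2.Cap

lemma g1 : Has Td 7 864
    ([3436710447206047901, 12830385669569245497, 11761186863771808372, 14636143652693805975, 14636143652693805975, 6623224602431136441, 5101569413099445950].map (· * 2 ^ 930)) :=
  step3 h5 Td 3 SL chk_SL _ 129 (by decide +kernel) _ _ _ (by decide +kernel)
    (by norm_num) (by norm_num)

lemma g2 : Has Tb 3 4320
    ([9380245987475723596, 10464567130731208368, 8799950850259114430].map (· * 2 ^ 4909)) :=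
  step3 g1 Tb 5 C2 chk_C2 _ 259 (by decide +kernel) _ _ _ (by decide +kernel)
    (by norm_num) (by norm_num)

lemma g3 : Has Td 7 12960
    ([4851021875464405236, 16235345257327428348, 13652761601758272683, 15230969474811817905, 15230969474811817905, 6735259850529501811, 4005265319870676475].map (· * 2 ^ 14854)) :=
  step3 g2 Td 3 SL chk_SL _ 127 (by decide +kernel) _ _ _ (by decide +kernel)
    (by norm_num) (by norm_num)

lemma g4 : Has Tb 3 51840
    ([10044990445822591600, 10125967822583055216, 9882801074641330303].map (· * 2 ^ 59611)) :=
  step3 g3 Tb 4 C1 chk_C1 _ 195 (by decide +kernel) _ _ _ (by decide +kernel)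
    (by norm_num) (by norm_num)

lemma g5 : Has Td 7 155520
    ([5957158216521390789, 18015544984301491415, 17582916561716503962, 17724660694440695450, 17724660694440695450, 6102393090675683836, 5673234196491045956].map (· * 2 ^ 178960)) :=
  step3 g4 Td 3 SL chk_SL _ 127 (by decide +kernel) _ _ _ (by decide +kernel)
    (by norm_num) (by norm_num)

lemma g6 : Has Tb 3 622080
    ([8210590744731899410, 9240086070653840633, 8015381833513045037].map (· * 2 ^ 716036)) :=
  step3 g5 Tb 4 P2 chk_P2 _ 196 (by decide +kernel) _ _ _ (by decide +kernel)
    (by norm_num) (by norm_num)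

lemma g7 : Has Td 7 1866240
    ([3253222495511322847, 10983395762892863241, 9527628876507430340, 10722262697682449545, 10722262697682449545, 4636802528802305883, 3026656942307905263].map (· * 2 ^ 2148235)) :=
  step3 g6 Td 3 SL chk_SL _ 127 (by decide +kernel) _ _ _ (by decide +kernel)
    (by norm_num) (by norm_num)

lemma g8 : Has Tb 3 7464960
    ([8291003034251375222, 9712081857176158349, 8727641801659695227].map (· * 2 ^ 8593133)) :=
  step3 g7 Tb 4 P2 chk_P2 _ 193 (by decide +kernel) _ _ _ (by decide +kernel)
    (by norm_num) (by norm_num)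

end Pool.Agent.H45.Cap
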